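import Pool.Agent.H795R4.BU.Step

set_option autoImplicit false

/-!
# Groups in an arbitrary universe
-/

namespace Pool.Agent.H795R4.BU

open Pool.Agent.H32BU

universe u

theorem map_closure3 {G H : Type*} [Group G] [Group H] (f : G →* H) (a x z : G) :
    (Subgroup.closure {a, x, z}).map f = Subgroup.closure {f a, f x, f z} := by
  rw [MonoidHom.map_closure]
  congr 1
  simp [Set.image_insert_eq]

theorem final_u (p q a b : ℕ) (hp : p.Prime) (hq : q.Prime) (hpq : p ≠ q)
    (hpa : 4 < p ^ a → InL.{u} (p ^ a)) (hqb : 4 < q ^ b → InL.{u} (q ^ b))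
    (G : Type u) [Group G] (hG : ∀ g : G, g ^ (p ^ a * q ^ b) = 1) (N : ℕ)
    (h : ∀ x y z : G, x ^ p ^ a = 1 → y ^ q ^ b = 1 → (z ^ p ^ a = 1 ∨ z ^ q ^ b = 1) →
      Finite (Subgroup.closure {x, y, z}) ∧ Nat.card (Subgroup.closure {x, y, z}) ≤ N)
    (S : Set G) (hS : S.Finite) : Finite (Subgroup.closure S) := by
  classical
  have h1 : LocFin (p ^ a) := by
    by_cases h4 : 4 < p ^ a
    · exact (inL_iff x_LFD _).1 (hpa h4)
    · exact small_pp x_LFD x_L34 p a hp h4
  have h2 : LocFin (q ^ b) := by
    by_cases h4 : 4 < q ^ b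
    · exact (inL_iff x_LFD _).1 (hqb h4)
    · exact small_pp x_LFD x_L34 q b hq h4
  have := hS.to_subtype
  obtain ⟨k, ⟨e⟩⟩ := Finite.exists_equiv_fin S
  let f : FreeGroup (Fin k) →* G := FreeGroup.lift fun i => (e.symm i : G)
  let Q : Type := FreeGroup (Fin k) ⧸ f.ker
  let F : Q →* G := QuotientGroup.kerLift f
  have hF : Function.Injective F := QuotientGroup.kerLift_injective f
  have hr : Subgroup.closure S ≤ F.range := by
    rw [Subgroup.closure_le]
    intro s hs
    refine ⟨QuotientGroup.mk (FreeGroup.of (e ⟨s, hs⟩)), ?_⟩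
    show QuotientGroup.kerLift f (QuotientGroup.mk (FreeGroup.of (e ⟨s, hs⟩))) = s
    rw [QuotientGroup.kerLift_mk]
    simp [f]
  have hpow : ∀ (x : Q) (n : ℕ), x ^ n = 1 ↔ F x ^ n = 1 := by
    intro x n
    rw [← map_pow]
    exact (map_eq_one_iff F hF).symm
  have hLF : LF Q := by
    refine final p q a b hp hq hpq h1 h2 Q (fun x => (hpow x _).2 (hG _)) N ?_
    intro x y z hx hy hz
    have hz' : F z ^ p ^ a = 1 ∨ F z ^ q ^ b = 1 := by
      rcases hz with hz | hz
      · exact Or.inl ((hpow z _).1 hz)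
      · exact Or.inr ((hpow z _).1 hz)
    obtain ⟨h3, h4⟩ := h (F x) (F y) (F z) ((hpow x _).1 hx) ((hpow y _).1 hy) hz'
    rw [← map_closure3] at h3 h4
    let E := (Subgroup.closure {x, y, z}).equivMapOfInjective F hF
    have h5 : Finite (Subgroup.closure {x, y, z}) := Finite.of_equiv _ E.symm.toEquiv
    refine ⟨h5, ?_⟩
    rw [Nat.card_congr E.toEquiv]
    exact h4
  -- `F.range` is the closure of a finite set
  have hfin : Finite Q := by
    apply finite_of_lf hLF
    refine (Group.fg_iff).2 ⟨Set.range fun i : Fin k => (QuotientGroup.mk (FreeGroup.of i) : Q),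
      ?_, Set.finite_range _⟩
    rw [eq_top_iff]
    rintro x -
    obtain ⟨w, rfl⟩ := QuotientGroup.mk_surjective x
    induction w using FreeGroup.induction_on with
    | C1 => exact one_mem _
    | of i => exact Subgroup.subset_closure ⟨i, rfl⟩
    | inv_of i hi =>
      have := inv_mem hi
      exact this
    | mul a b ha hb =>
      have := mul_mem ha hb
      exact this
  have : Finite F.range := Finite.of_surjective F.rangeRestrict F.rangeRestrict_surjective
  exact Finite.of_injective (Subgroup.inclusion hr) (Subgroup.inclusion_injective hr)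

end Pool.Agent.H795R4.BU
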