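import Pool.Agent.H32BU.TPAIR

set_option autoImplicit false

/-!
# Changing one generator by the elements of a normal `p`-subgroup

A one-sided form of the lemma `S_PAIR` of the starting files `H32BU`: only one of the two
generators is changed. The theorem `half'` is `TPAIR.half` of that file with a weaker hypothesis.
-/

namespace Pool.Agent.H795R4.BU

open Pool.Agent.H32BU Pool.Agent.H32BU.TPAIR

variable {F : Type} [Group F]

theorem half' (h1 : S_SZ) (h2 : S_CNT) (h3 : S_MAPS) (h4 : S_MON) (h5 : S_SYL)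
    (V : Subgroup F) (p m : ℕ) (a x : F) [hfin : Finite F]
    (hp : p.Prime) (hV : V.Normal) (hcomm : ∀ v ∈ V, ∀ w ∈ V, v * w = w * v)
    (hexp : ∀ v ∈ V, v ^ p = 1)
    (hB : ∀ b ∈ DD (c2 a x) m, ∃ k : ℕ, Nat.Coprime k p ∧ b ^ k = 1)
    (hall : ∀ v ∈ V, DD (c2 a (x * v)) (m + 1) = ⊥) (u : F) (hu : u ∈ V) :
    a⁻¹ * u * a * u⁻¹ ∈ V ⊓ Subgroup.centralizer (DD (c2 a x) m : Set F) := by
  have haH : a ∈ c2 a x := Subgroup.subset_closure (by simp)
  have hxH : x ∈ c2 a x := Subgroup.subset_closure (by simp)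
  set B := DD (c2 a x) m with hBdef
  have hCinv : ∀ h ∈ c2 a x, ∀ c ∈ V ⊓ Subgroup.centralizer (B : Set F),
      h⁻¹ * c * h ∈ V ⊓ Subgroup.centralizer (B : Set F) := by
    intro h hh c hc
    rw [Subgroup.mem_inf, Subgroup.mem_centralizer_iff] at hc ⊢
    refine ⟨?_, fun b hb => ?_⟩
    · have := hV.conj_mem c hc.1 h⁻¹
      rwa [inv_inv] at this
    · have hb' := (conj_mem h4 (c2 a x) m hh (SetLike.mem_coe.1 hb)).1
      have := hc.2 _ (SetLike.mem_coe.2 hb')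
      -- (h b h⁻¹) c = c (h b h⁻¹)
      calc b * (h⁻¹ * c * h) = h⁻¹ * ((h * b * h⁻¹) * c) * h := by group
        _ = h⁻¹ * (c * (h * b * h⁻¹)) * h := by rw [this]
        _ = (h⁻¹ * c * h) * b := by group
  refine h2 F V (V ⊓ Subgroup.centralizer (B : Set F)) a x hfin hV hcomm inf_le_left
    (fun c hc => hCinv a haH c hc) (fun c hc => hCinv x hxH c hc) ?_ u hu
  clear u hu
  intro v hv
  -- the group `H_v`
  set Hv := c2 a (x * v) with hHv
  have haHv : a ∈ Hv := Subgroup.subset_closure (by simp)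
  have hxHv : x * v ∈ Hv := Subgroup.subset_closure (by simp)
  set Bv := DD Hv m with hBv
  have hNR : NR Bv = ⊥ := hall v hv
  have hBvfin : Finite Bv := inferInstance
  obtain ⟨_, ⟨B', hB'⟩⟩ := h5 F Bv hBvfin hNR p hp
  -- images in `F ⧸ V`
  haveI := hV
  set f := QuotientGroup.mk' V with hf
  have hfv : ∀ v ∈ V, f v = 1 := fun v hv => (QuotientGroup.eq_one_iff v).2 hv
  have hmapH : Hv.map f = (c2 a x).map f := by
    rw [hHv]
    unfold c2
    rw [MonoidHom.map_closure, MonoidHom.map_closure, Set.image_pair, Set.image_pair, map_mul,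
      hfv v hv, mul_one]
  have hmapB : Bv.map f = B.map f := by
    rw [hBv, hBdef, h3 F (F ⧸ V) f (fun x => isOfFinOrder_of_finite x) Hv m,
      h3 F (F ⧸ V) f (fun x => isOfFinOrder_of_finite x) (c2 a x) m, hmapH]
  have hdiff : ∀ g h : F, f g = f h → h⁻¹ * g ∈ V := by
    intro g h hgh
    exact QuotientGroup.eq.1 hgh.symm
  -- first condition
  have hc1 : ∀ b ∈ B, ∃ v ∈ V, b * v ∈ B' := by
    intro b hb
    obtain ⟨k, hk, hbk⟩ := hB b hb
    have hfb : f b ∈ Bv.map f := by rw [hmapB]; exact Subgroup.mem_map_of_mem f hb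
    obtain ⟨g, hg, hgb⟩ := Subgroup.mem_map.1 hfb
    have hgk : g ^ k ∈ V := by
      have : f (g ^ k) = 1 := by rw [map_pow, hgb, ← map_pow, hbk, map_one]
      exact (QuotientGroup.eq_one_iff _).1 this
    have hgkp := hexp _ hgk
    obtain ⟨t, ht1, ht2⟩ := Nat.chineseRemainder hk 1 0
    have hpt : p ∣ t := (Nat.modEq_zero_iff_dvd).1 ht2
    have hbt : b ^ t = b := by
      have := pow_eq_pow_iff_modEq (x := b) (n := t) (m := 1)
      have h' : t ≡ 1 [MOD orderOf b] := ht1.of_dvd (orderOf_dvd_of_pow_eq_one hbk)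
      have h'' := this.2 h'
      rwa [pow_one] at h''
    have hgt : g ^ t ∈ B' := by
      rw [hB']
      refine ⟨Bv.pow_mem hg t, k, hk, ?_⟩
      obtain ⟨s, hs⟩ := hpt
      rw [← pow_mul, hs]
      have : p * s * k = (k * p) * s := by ring
      rw [this, pow_mul, pow_mul, hgkp, one_pow]
    refine ⟨b⁻¹ * g ^ t, hdiff _ _ ?_, ?_⟩
    · rw [map_pow, hgb, ← map_pow, hbt]
    · rw [mul_inv_cancel_left]; exact hgt
  have hc2 : ∀ b ∈ B', ∃ v ∈ V, b * v ∈ B := by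
    intro b hb
    have hb' := ((hB' b).1 hb).1
    have hfb : f b ∈ B.map f := by rw [← hmapB]; exact Subgroup.mem_map_of_mem f hb'
    obtain ⟨g, hg, hgb⟩ := Subgroup.mem_map.1 hfb
    exact ⟨b⁻¹ * g, hdiff _ _ hgb, by rw [mul_inv_cancel_left]; exact hg⟩
  obtain ⟨u, hu, hug⟩ := h1 F V B B' p hfin hp hV hcomm hexp hB
    (fun b hb => ((hB' b).1 hb).2) hc1 hc2
  -- `H_v` normalises `B'`
  have hnorm : ∀ h ∈ Hv, ∀ g ∈ B', h * g * h⁻¹ ∈ B' := by
    intro h hh g hg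
    rw [hB'] at hg ⊢
    obtain ⟨hg1, k, hk, hgk⟩ := hg
    refine ⟨(conj_mem h4 Hv m hh hg1).1, k, hk, ?_⟩
    rw [conj_pow, hgk, mul_one, mul_inv_cancel]
  have key : ∀ y ∈ c2 a x, ∀ v' ∈ V, y * v' ∈ Hv →
      y⁻¹ * u * y * v' * u⁻¹ ∈ V ⊓ Subgroup.centralizer (B : Set F) := by
    intro y hy v' hv' hyv
    have hwV : y⁻¹ * u * y * v' * u⁻¹ ∈ V := by
      refine V.mul_mem (V.mul_mem ?_ hv') (V.inv_mem hu)
      have := hV.conj_mem u hu y⁻¹
      rwa [inv_inv] at this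
    set w := y⁻¹ * u * y * v' * u⁻¹ with hw
    rw [Subgroup.mem_inf, Subgroup.mem_centralizer_iff]
    refine ⟨hwV, fun b hb => ?_⟩
    rw [SetLike.mem_coe] at hb
    have s1 : u⁻¹ * b * u ∈ B' := by
      rw [hug]
      have : u * (u⁻¹ * b * u) * u⁻¹ = b := by group
      rw [this]; exact hb
    have s2 := hnorm _ hyv _ s1
    have s3 := (hug _).1 s2
    have s4 := (conj_mem h4 (c2 a x) m hy s3).2
    have s5 : y⁻¹ * (u * (y * v' * (u⁻¹ * b * u) * (y * v')⁻¹) * u⁻¹) * y = w * b * w⁻¹ := by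
      rw [hw]; group
    rw [s5] at s4
    have s6 : w * b * w⁻¹ * b⁻¹ ∈ B := B.mul_mem s4 (B.inv_mem hb)
    have s7 : w * b * w⁻¹ * b⁻¹ ∈ V := by
      have := V.mul_mem hwV (hV.conj_mem _ (V.inv_mem hwV) b)
      have e : w * (b * w⁻¹ * b⁻¹) = w * b * w⁻¹ * b⁻¹ := by group
      rwa [e] at this
    obtain ⟨k, hk, hk1⟩ := hB _ s6
    have s8 := eq_one_of_coprime hk hk1 (hexp _ s7)
    have s9 : w * b = b * w := by
      rw [mul_inv_eq_one, mul_inv_eq_iff_eq_mul] at s8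
      exact s8
    exact s9.symm
  refine ⟨u, hu, ?_, key x hxH v hv hxHv⟩
  have := key a haH 1 V.one_mem (by rw [mul_one]; exact haHv)
  rwa [mul_one] at this


/-- If `a` acts trivially on `V / C`, the group generated by `a` and `x` acts on `V / C` as an
abelian group. -/
theorem comm_core (V C : Subgroup F) (a x : F) (hV : V.Normal)
    (hCinv : ∀ h ∈ c2 a x, ∀ c ∈ C, h⁻¹ * c * h ∈ C)
    (ha : ∀ u ∈ V, a⁻¹ * u * a * u⁻¹ ∈ C) :
    ∀ g ∈ c2 a x, ∀ h ∈ c2 a x, ∀ u ∈ V,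
      (g * h * g⁻¹ * h⁻¹)⁻¹ * u * (g * h * g⁻¹ * h⁻¹) * u⁻¹ ∈ C := by
  have haH : a ∈ c2 a x := Subgroup.subset_closure (by simp)
  have hxH : x ∈ c2 a x := Subgroup.subset_closure (by simp)
  have hCinv' : ∀ h ∈ c2 a x, ∀ c ∈ C, h * c * h⁻¹ ∈ C := by
    intro h hh c hc
    have := hCinv h⁻¹ (Subgroup.inv_mem _ hh) c hc
    rwa [inv_inv] at this
  have hVc : ∀ (h : F), ∀ u ∈ V, h⁻¹ * u * h ∈ V := by
    intro h u hu
    have := hV.conj_mem u hu h⁻¹
    rwa [inv_inv] at this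
  let T : Subgroup F :=
    { carrier := {h | h ∈ c2 a x ∧ ∀ u ∈ V, h⁻¹ * u * h * u⁻¹ ∈ C}
      one_mem' := ⟨Subgroup.one_mem _, fun u _ => by simpa using Subgroup.one_mem C⟩
      mul_mem' := by
        rintro g h ⟨hg, hgu⟩ ⟨hh, hhu⟩
        refine ⟨Subgroup.mul_mem _ hg hh, fun u hu => ?_⟩
        have e : (g * h)⁻¹ * u * (g * h) * u⁻¹ =
            (h⁻¹ * (g⁻¹ * u * g * u⁻¹) * h) * (h⁻¹ * u * h * u⁻¹) := by group
        rw [e]
        exact Subgroup.mul_mem _ (hCinv h hh _ (hgu u hu)) (hhu u hu)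
      inv_mem' := by
        rintro g ⟨hg, hgu⟩
        refine ⟨Subgroup.inv_mem _ hg, fun u hu => ?_⟩
        have hu' : g * u * g⁻¹ ∈ V := hV.conj_mem u hu g
        have := Subgroup.inv_mem _ (hgu _ hu')
        have e : (g⁻¹ * (g * u * g⁻¹) * g * (g * u * g⁻¹)⁻¹)⁻¹ = g⁻¹⁻¹ * u * g⁻¹ * u⁻¹ := by
          group
        rwa [e] at this }
  have hTmem : ∀ h, h ∈ T ↔ h ∈ c2 a x ∧ ∀ u ∈ V, h⁻¹ * u * h * u⁻¹ ∈ C := fun h => Iff.rfl
  have haT : a ∈ T := ⟨haH, ha⟩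
  have hTn : ∀ h ∈ c2 a x, ∀ t ∈ T, h * t * h⁻¹ ∈ T := by
    intro h hh t ht
    refine ⟨Subgroup.mul_mem _ (Subgroup.mul_mem _ hh ht.1) (Subgroup.inv_mem _ hh),
      fun u hu => ?_⟩
    have h1 := ht.2 _ (hVc h u hu)
    have h2 := hCinv' h hh _ h1
    have e : h * (t⁻¹ * (h⁻¹ * u * h) * t * (h⁻¹ * u * h)⁻¹) * h⁻¹ =
        (h * t * h⁻¹)⁻¹ * u * (h * t * h⁻¹) * u⁻¹ := by group
    rwa [e] at h2
  have hTn' : ∀ h ∈ c2 a x, ∀ t ∈ T, h⁻¹ * t * h ∈ T := by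
    intro h hh t ht
    have := hTn h⁻¹ (Subgroup.inv_mem _ hh) t ht
    rwa [inv_inv] at this
  -- commutators with a fixed element
  have hstep : ∀ y ∈ c2 a x, a * y * a⁻¹ * y⁻¹ ∈ T → x * y * x⁻¹ * y⁻¹ ∈ T →
      ∀ g ∈ c2 a x, g ∈ c2 a x ∧ g * y * g⁻¹ * y⁻¹ ∈ T := by
    intro y hy h1 h2 g hg
    unfold c2 at hg
    induction hg using Subgroup.closure_induction with
    | mem g hg =>
      rcases hg with rfl | hg
      · exact ⟨haH, h1⟩
      · rw [Set.mem_singleton_iff] at hg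
        subst hg
        exact ⟨hxH, h2⟩
    | one =>
      refine ⟨Subgroup.one_mem _, ?_⟩
      have e : (1 : F) * y * 1⁻¹ * y⁻¹ = 1 := by group
      rw [e]
      exact T.one_mem
    | mul g h _ _ ihg ihh =>
      refine ⟨Subgroup.mul_mem _ ihg.1 ihh.1, ?_⟩
      have e : g * h * y * (g * h)⁻¹ * y⁻¹ =
          g * (h * y * h⁻¹ * y⁻¹) * g⁻¹ * (g * y * g⁻¹ * y⁻¹) := by group
      rw [e]
      exact T.mul_mem (hTn g ihg.1 _ ihh.2) ihg.2
    | inv g _ ih =>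
      refine ⟨Subgroup.inv_mem _ ih.1, ?_⟩
      have h3 := hTn' g ih.1 _ (T.inv_mem ih.2)
      have e : g⁻¹ * (g * y * g⁻¹ * y⁻¹)⁻¹ * g = g⁻¹ * y * g⁻¹⁻¹ * y⁻¹ := by group
      rwa [e] at h3
  have hsymm : ∀ g h : F, g * h * g⁻¹ * h⁻¹ ∈ T → h * g * h⁻¹ * g⁻¹ ∈ T := by
    intro g h hgh
    have := T.inv_mem hgh
    have e : (g * h * g⁻¹ * h⁻¹)⁻¹ = h * g * h⁻¹ * g⁻¹ := by group
    rwa [e] at this
  have hay : ∀ y ∈ c2 a x, a * y * a⁻¹ * y⁻¹ ∈ T := by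
    intro y hy
    have h1 := hTn y hy _ (T.inv_mem haT)
    have h2 := T.mul_mem haT h1
    have e : a * (y * a⁻¹ * y⁻¹) = a * y * a⁻¹ * y⁻¹ := by group
    rwa [e] at h2
  have hxx : x * x * x⁻¹ * x⁻¹ ∈ T := by
    have e : x * x * x⁻¹ * x⁻¹ = 1 := by group
    rw [e]
    exact T.one_mem
  have hxy : ∀ y ∈ c2 a x, x * y * x⁻¹ * y⁻¹ ∈ T := by
    intro y hy
    exact hsymm _ _ (hstep x hxH (hay x hxH) hxx y hy).2
  intro g hg h hh u hu
  exact (hstep h hh (hay h hh) (hxy h hh) g hg).2.2 u hu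

/-- One-sided change of a generator: `a` is fixed and `x` is changed. -/
theorem pair' (h1 : S_SZ) (h2 : S_CNT) (h3 : S_MAPS) (h4 : S_MON) (h5 : S_SYL)
    (V : Subgroup F) (p m : ℕ) (a x : F) (hfin : Finite F)
    (hp : p.Prime) (hV : V.Normal) (hcomm : ∀ v ∈ V, ∀ w ∈ V, v * w = w * v)
    (hexp : ∀ v ∈ V, v ^ p = 1)
    (hB : ∀ b ∈ DD (c2 a x) (m + 1), ∃ k : ℕ, Nat.Coprime k p ∧ b ^ k = 1)
    (hfaith : ∀ b ∈ DD (c2 a x) (m + 1), (∀ v ∈ V, b * v = v * b) → b = 1)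
    (hall : ∀ v ∈ V, DD (c2 a (x * v)) (m + 1 + 1) = ⊥) : DD (c2 a x) (m + 1) = ⊥ := by
  have ha := half' h1 h2 h3 h4 h5 V p (m + 1) a x hp hV hcomm hexp hB hall
  set B := DD (c2 a x) (m + 1) with hBdef
  have hCinv : ∀ h ∈ c2 a x, ∀ c ∈ V ⊓ Subgroup.centralizer (B : Set F),
      h⁻¹ * c * h ∈ V ⊓ Subgroup.centralizer (B : Set F) := by
    intro h hh c hc
    rw [Subgroup.mem_inf, Subgroup.mem_centralizer_iff] at hc ⊢
    refine ⟨?_, fun b hb => ?_⟩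
    · have := hV.conj_mem c hc.1 h⁻¹
      rwa [inv_inv] at this
    · have hb' := (conj_mem h4 (c2 a x) (m + 1) hh (SetLike.mem_coe.1 hb)).1
      have := hc.2 _ (SetLike.mem_coe.2 hb')
      calc b * (h⁻¹ * c * h) = h⁻¹ * ((h * b * h⁻¹) * c) * h := by group
        _ = h⁻¹ * (c * (h * b * h⁻¹)) * h := by rw [this]
        _ = (h⁻¹ * c * h) * b := by group
  have hcomms := comm_core V _ a x hV hCinv ha
  -- all elements of `B` act trivially on `V / C`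
  have hBT : ∀ b ∈ B, ∀ u ∈ V, b⁻¹ * u * b * u⁻¹ ∈ V ⊓ Subgroup.centralizer (B : Set F) := by
    have hle : B ≤ c2 a x := le_top_DD h4 _ _
    have hD : DD (c2 a x) m ≤ c2 a x := le_top_DD h4 _ _
    have key : ∀ b ∈ NR (DD (c2 a x) m), b ∈ c2 a x ∧
        ∀ u ∈ V, b⁻¹ * u * b * u⁻¹ ∈ V ⊓ Subgroup.centralizer (B : Set F) := by
      intro b hb
      unfold NR at hb
      induction hb using Subgroup.closure_induction with
      | mem g hg =>
        obtain ⟨y, hy, z, hz, _, _, _, _, _, rfl⟩ := hg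
        exact ⟨Subgroup.mul_mem _ (Subgroup.mul_mem _ (Subgroup.mul_mem _ (hD hy) (hD hz))
          (Subgroup.inv_mem _ (hD hy))) (Subgroup.inv_mem _ (hD hz)),
          hcomms y (hD hy) z (hD hz)⟩
      | one =>
        refine ⟨Subgroup.one_mem _, fun u _ => ?_⟩
        simpa using Subgroup.one_mem _
      | mul g h _ _ ihg ihh =>
        refine ⟨Subgroup.mul_mem _ ihg.1 ihh.1, fun u hu => ?_⟩
        have e : (g * h)⁻¹ * u * (g * h) * u⁻¹ =
            (h⁻¹ * (g⁻¹ * u * g * u⁻¹) * h) * (h⁻¹ * u * h * u⁻¹) := by group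
        rw [e]
        exact Subgroup.mul_mem _ (hCinv h ihh.1 _ (ihg.2 u hu)) (ihh.2 u hu)
      | inv g _ ih =>
        refine ⟨Subgroup.inv_mem _ ih.1, fun u hu => ?_⟩
        have hu' : g * u * g⁻¹ ∈ V := hV.conj_mem u hu g
        have := Subgroup.inv_mem _ (ih.2 _ hu')
        have e : (g⁻¹ * (g * u * g⁻¹) * g * (g * u * g⁻¹)⁻¹)⁻¹ = g⁻¹⁻¹ * u * g⁻¹ * u⁻¹ := by
          group
        rwa [e] at this
    intro b hb
    exact (key b hb).2
  rw [eq_bot_iff]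
  intro b hb
  rw [Subgroup.mem_bot]
  refine hfaith b hb (fun u hu => ?_)
  have hw := hBT b hb u hu
  rw [Subgroup.mem_inf, Subgroup.mem_centralizer_iff] at hw
  obtain ⟨hwV, hwC⟩ := hw
  have hwb := hwC b (SetLike.mem_coe.2 hb)
  set w := b⁻¹ * u * b * u⁻¹ with hwdef
  have h0 : b⁻¹ * u * b = w * u := by rw [hwdef]; group
  have hc : Commute w b := hwb.symm
  have hpow : ∀ k : ℕ, (b ^ k)⁻¹ * u * b ^ k = w ^ k * u := by
    intro k
    induction k with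
    | zero => simp
    | succ k ih =>
      have hc2 : b⁻¹ * w ^ k * b = w ^ k := by
        have := (hc.pow_left k).eq
        rw [mul_assoc, this, ← mul_assoc, inv_mul_cancel, one_mul]
      calc (b ^ (k + 1))⁻¹ * u * b ^ (k + 1) = b⁻¹ * ((b ^ k)⁻¹ * u * b ^ k) * b := by
            rw [pow_succ]; group
        _ = b⁻¹ * (w ^ k * u) * b := by rw [ih]
        _ = (b⁻¹ * w ^ k * b) * (b⁻¹ * u * b) := by group
        _ = w ^ k * (w * u) := by rw [hc2, h0]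
        _ = w ^ (k + 1) * u := by rw [pow_succ]; group
  obtain ⟨k, hk, hbk⟩ := hB b hb
  have h6 := hpow k
  rw [hbk, inv_one, one_mul, mul_one] at h6
  have h7 : w ^ k = 1 := by
    have := h6.symm
    rwa [mul_eq_right] at this
  have h8 : w = 1 := eq_one_of_coprime hk h7 (hexp w hwV)
  rw [h8, one_mul] at h0
  have : u * b = b * u := by
    calc u * b = b * (b⁻¹ * u * b) := by group
      _ = b * u := by rw [h0]
  exact this.symm

end Pool.Agent.H795R4.BU
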