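import Pool.Agent.H795R4.BU.TwoPQ

set_option autoImplicit false

/-!
# Descent on the height for groups of exponent `r ^ α * s ^ β`
-/

namespace Pool.Agent.H795R4.BU

open Pool.Agent.H32BU Pool.Agent.H32BU.TPAIR

theorem qp_cases (r s α β : ℕ) (hr : r.Prime) (hs : s.Prime) (hrs : r ≠ s) (p : ℕ)
    (hp : p.Prime) :
    qp p (r ^ α * s ^ β) = r ^ α ∨ qp p (r ^ α * s ^ β) = s ^ β ∨
      qp p (r ^ α * s ^ β) = 1 := by
  have hr0 : r ^ α ≠ 0 := pow_ne_zero _ hr.ne_zero
  have hs0 : s ^ β ≠ 0 := pow_ne_zero _ hs.ne_zero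
  have hf : (r ^ α * s ^ β).factorization p = α * r.factorization p + β * s.factorization p := by
    rw [Nat.factorization_mul hr0 hs0, Nat.factorization_pow, Nat.factorization_pow]
    simp
  unfold qp
  rw [hf]
  by_cases h1 : p = r
  · subst h1
    left
    have h2 : s.factorization p = 0 :=
      Nat.factorization_eq_zero_of_not_dvd fun h =>
        hrs ((Nat.prime_dvd_prime_iff_eq hp hs).1 h)
    rw [h2, hp.factorization_self]
    simp
  · by_cases h3 : p = s
    · subst h3
      right
      left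
      have h2 : r.factorization p = 0 :=
        Nat.factorization_eq_zero_of_not_dvd fun h =>
          h1 ((Nat.prime_dvd_prime_iff_eq hp hr).1 h)
      rw [h2, hp.factorization_self]
      simp
    · right
      right
      have h2 : r.factorization p = 0 :=
        Nat.factorization_eq_zero_of_not_dvd fun h =>
          h1 ((Nat.prime_dvd_prime_iff_eq hp hr).1 h)
      have h4 : s.factorization p = 0 :=
        Nat.factorization_eq_zero_of_not_dvd fun h =>
          h3 ((Nat.prime_dvd_prime_iff_eq hp hs).1 h)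
      rw [h2, h4]
      simp

/-- The hypothesis on the triples. -/
def Trip (R S m : ℕ) (G : Type) [Group G] : Prop :=
  ∀ a x z : G, a ^ R = 1 → x ^ S = 1 → (z ^ R = 1 ∨ z ^ S = 1) →
    Finite (c3 a x z) ∧ Group.IsSolvable (c3 a x z) ∧ DD (c3 a x z) m = ⊥

theorem step (r s α β : ℕ) (hr : r.Prime) (hs : s.Prime) (hrs : r ≠ s)
    (hlr : LocFin (r ^ α)) (hls : LocFin (s ^ β)) (m : ℕ) (G : Type) [Group G]
    (hG : ∀ x : G, x ^ (r ^ α * s ^ β) = 1) (h : Trip (r ^ α) (s ^ β) (m + 1) G) :
    ∃ (M : Subgroup G) (_ : M.Normal), LF M ∧ Trip (r ^ α) (s ^ β) m (G ⧸ M) := by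
  have hRS : Nat.Coprime (r ^ α) (s ^ β) :=
    Nat.Coprime.pow α β ((Nat.coprime_primes hr hs).2 hrs)
  have hn : 1 ≤ r ^ α * s ^ β :=
    Nat.mul_pos (pow_pos hr.pos _) (pow_pos hs.pos _)
  have hcases := qp_cases r s α β hr hs hrs
  obtain ⟨M, hM, hMl, hMs⟩ := x_MLFV (fun G [Group G] => True)
    ⟨fun _ _ _ _ => trivial, fun _ _ _ _ _ => trivial⟩ (r ^ α * s ^ β) hn (by
      intro p hp H _ _ hH
      rcases hcases p hp with h1 | h1 | h1
      · rw [h1] at hH; exact hlr H hH
      · rw [h1] at hH; exact hls H hH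
      · rw [h1] at hH; exact x_LFD.2.2.1 H hH) G trivial
  refine ⟨M, hM, hMl, ?_⟩
  set R := r ^ α with hR
  set S' := s ^ β with hS'
  have hG' : ∀ x : G, x ^ (S' * R) = 1 := fun x => by rw [mul_comm]; exact hG x
  have htor : ∀ x : G, IsOfFinOrder x := fun x =>
    isOfFinOrder_iff_pow_eq_one.2 ⟨R * S', by omega, hG x⟩
  have hsurjM : Function.Surjective (QuotientGroup.mk' M) := QuotientGroup.mk'_surjective M
  -- two-generator subgroups
  have htwo : ∀ a x : G, a ^ R = 1 → x ^ S' = 1 → DD (c2 a x) m ≤ M := by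
    intro a x ha hx e he
    apply mem_of_parts M (R * S') hn e
    intro p hp
    apply hMs p hp
    have hpe : (e ^ (R * S' / qp p (R * S'))) ^ qp p (R * S') = 1 := by
      rw [← pow_mul, show R * S' / qp p (R * S') * qp p (R * S') = R * S' from
        Nat.div_mul_cancel (Nat.ordProj_dvd _ p), hG]
    refine ⟨hpe, ?_⟩
    intro y hy
    have hytype : y ^ R = 1 ∨ y ^ S' = 1 := by
      rcases hcases p hp with h1 | h1 | h1
      · rw [h1] at hy; exact Or.inl hy
      · rw [h1] at hy; exact Or.inr hy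
      · rw [h1, pow_one] at hy
        left
        rw [hy, one_pow]
    obtain ⟨hf, hsv, hd⟩ := h a x y ha hx hytype
    have hle : c2 a x ≤ c3 a x y := by
      unfold c2 c3
      apply Subgroup.closure_mono
      intro t ht
      simp only [Set.mem_insert_iff, Set.mem_singleton_iff] at ht ⊢
      tauto
    have hyin : y ∈ c3 a x y := Subgroup.subset_closure (by simp)
    exact x_COPC G (c3 a x y) hf (R * S') hn (fun t _ => hG t) m hd p hp _
      (Subgroup.pow_mem _ ((x_MON G).1 _ _ hle m he) _) hpe y hyin hy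
  intro a' x' z' ha' hx' hz'
  obtain ⟨a, ha, rfl⟩ := lift_of (QuotientGroup.mk' M) hsurjM R S' hRS hG a' ha'
  obtain ⟨x, hx, rfl⟩ := lift_of (QuotientGroup.mk' M) hsurjM S' R hRS.symm hG' x' hx'
  obtain ⟨z, hz, rfl⟩ : ∃ z : G, (z ^ R = 1 ∨ z ^ S' = 1) ∧ (QuotientGroup.mk' M) z = z' := by
    rcases hz' with hz' | hz'
    · obtain ⟨z, hz, hzz⟩ := lift_of (QuotientGroup.mk' M) hsurjM R S' hRS hG z' hz'
      exact ⟨z, Or.inl hz, hzz⟩
    · obtain ⟨z, hz, hzz⟩ := lift_of (QuotientGroup.mk' M) hsurjM S' R hRS.symm hG' z' hz'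
      exact ⟨z, Or.inr hz, hzz⟩
  obtain ⟨hf, hsv, hd⟩ := h a x z ha hx hz
  have hmap : (c3 a x z).map (QuotientGroup.mk' M) =
      c3 ((QuotientGroup.mk' M) a) ((QuotientGroup.mk' M) x) ((QuotientGroup.mk' M) z) :=
    map_c3 _ a x z
  rw [← hmap]
  have hsurj := (QuotientGroup.mk' M).subgroupMap_surjective (c3 a x z)
  have hf' : Finite ((c3 a x z).map (QuotientGroup.mk' M)) := Finite.of_surjective _ hsurj
  have hs' : Group.IsSolvable ((c3 a x z).map (QuotientGroup.mk' M)) :=
    Group.isSolvable_of_surjective hsurj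
  refine ⟨hf', hs', ?_⟩
  set F : Subgroup (G ⧸ M) := (c3 a x z).map (QuotientGroup.mk' M) with hF
  have h7 : DD (⊤ : Subgroup F) m = ⊥ := by
    apply two_pq r s α β hr hs hrs F hf' hs' ?_ m
    · intro b y hb hy
      have h8 := x_MAPI F (G ⧸ M) F.subtype F.subtype_injective (c2 b y) m
      have h9 : DD ((c2 b y).map F.subtype) m = ⊥ := by
        rw [H32BU.map_c2]
        have hb1 : (F.subtype b) ^ R = 1 := by rw [← map_pow, hb, map_one]
        have hy1 : (F.subtype y) ^ S' = 1 := by rw [← map_pow, hy, map_one]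
        obtain ⟨b', hb', hbb⟩ := lift_of (QuotientGroup.mk' M) hsurjM R S' hRS hG _ hb1
        obtain ⟨y', hy', hyy⟩ := lift_of (QuotientGroup.mk' M) hsurjM S' R hRS.symm hG' _ hy1
        have h10 : c2 (F.subtype b) (F.subtype y) = (c2 b' y').map (QuotientGroup.mk' M) := by
          rw [H32BU.map_c2, hbb, hyy]
        rw [h10, ← x_MAPS G (G ⧸ M) (QuotientGroup.mk' M) htor]
        rw [eq_bot_iff]
        rintro _ ⟨w, hw, rfl⟩
        rw [Subgroup.mem_bot]
        exact (QuotientGroup.eq_one_iff w).2 (htwo b' y' hb' hy' hw)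
      rw [h9] at h8
      exact (Subgroup.map_eq_bot_iff_of_injective _ F.subtype_injective).1 h8
    · rintro ⟨y, hy⟩
      obtain ⟨w, rfl⟩ := hsurjM y
      ext
      show ((QuotientGroup.mk' M) w) ^ (R * S') = 1
      rw [← map_pow, hG, map_one]
  have h11 := x_MAPI F (G ⧸ M) F.subtype F.subtype_injective ⊤ m
  rw [h7, Subgroup.map_bot, ← MonoidHom.range_eq_map, Subgroup.range_subtype] at h11
  exact h11.symm

theorem ind (r s α β : ℕ) (hr : r.Prime) (hs : s.Prime) (hrs : r ≠ s)
    (hlr : LocFin (r ^ α)) (hls : LocFin (s ^ β)) (m : ℕ) :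
    ∀ (G : Type) [Group G], (∀ x : G, x ^ (r ^ α * s ^ β) = 1) →
      Trip (r ^ α) (s ^ β) m G → LF G := by
  induction m with
  | zero =>
    intro G _ hG h
    have h1 : ∀ a : G, a ^ r ^ α = 1 → a = 1 := by
      intro a ha
      have h3 : c3 a 1 1 = ⊥ := (h a 1 1 ha (one_pow _) (Or.inl (one_pow _))).2.2
      have h4 : a ∈ c3 a 1 1 := Subgroup.subset_closure (by simp)
      rw [h3] at h4
      exact Subgroup.mem_bot.1 h4
    have h2 : ∀ a : G, a ^ s ^ β = 1 → a = 1 := by
      intro a ha
      have h3 : c3 1 a 1 = ⊥ := (h 1 a 1 (one_pow _) ha (Or.inl (one_pow _))).2.2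
      have h4 : a ∈ c3 1 a 1 := Subgroup.subset_closure (by simp)
      rw [h3] at h4
      exact Subgroup.mem_bot.1 h4
    have h0 : ∀ a : G, a = 1 := one_of_parts _ _ hG h1 h2
    intro S
    have : Subsingleton G := ⟨fun a b => by rw [h0 a, h0 b]⟩
    infer_instance
  | succ m ih =>
    intro G _ hG h
    obtain ⟨M, hM, hMl, hM3⟩ := step r s α β hr hs hrs hlr hls m G hG h
    refine x_SCH G M hMl (ih (G ⧸ M) ?_ hM3)
    intro x
    obtain ⟨g, rfl⟩ := QuotientGroup.mk_surjective x
    rw [← QuotientGroup.mk_pow, hG g]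
    rfl

/-- A finite soluble group of order at most `k` has height at most `k`. -/
theorem depth (k : ℕ) : ∀ (G : Type) [Group G] (A : Subgroup G), Finite A →
    Group.IsSolvable A → Nat.card A ≤ k → DD A k = ⊥ := by
  induction k with
  | zero =>
    intro G _ A hA _ hc
    have : 0 < Nat.card A := Nat.card_pos
    omega
  | succ k ih =>
    intro G _ A hA hs hc
    by_cases hb : A = ⊥
    · rw [eq_bot_iff, hb]
      exact le_top_DD x_MON ⊥ (k + 1)
    · -- `NR A` is a proper subgroup
      have hle : NR A ≤ A := (x_MON G).2.1 A 0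
      have hne : NR A ≠ A := by
        intro heq
        have hconst : ∀ m, DD A m = A := by
          intro m
          induction m with
          | zero => rfl
          | succ m ihm =>
            show NR (DD A m) = A
            rw [ihm, heq]
        obtain ⟨m, hm⟩ := x_SOLH A hA hs
        have h1 := x_MAPI A G A.subtype A.subtype_injective ⊤ m
        rw [hm, Subgroup.map_bot, ← MonoidHom.range_eq_map, Subgroup.range_subtype,
          hconst m] at h1
        exact hb h1.symm
      have hfinN : Finite (NR A) := Finite.of_injective _ (Subgroup.inclusion_injective hle)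
      have hsolN : Group.IsSolvable (NR A) :=
        Group.isSolvable_of_isSolvable_injective (Subgroup.inclusion_injective hle)
      have hcard : Nat.card (NR A) < Nat.card A := by
        have h1 : Nat.card (NR A) ≤ Nat.card A :=
          Nat.card_le_card_of_injective _ (Subgroup.inclusion_injective hle)
        rcases lt_or_eq_of_le h1 with h2 | h2
        · exact h2
        · exact absurd (Subgroup.eq_of_le_of_card_ge hle h2.ge) hne
      have h1 := ih G (NR A) hfinN hsolN (by omega)
      have h2 := (x_MON G).2.2.2.2 A 1 k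
      rw [show k + 1 = 1 + k by ring, h2]
      exact h1

theorem final (r s α β : ℕ) (hr : r.Prime) (hs : s.Prime) (hrs : r ≠ s)
    (hlr : LocFin (r ^ α)) (hls : LocFin (s ^ β)) (G : Type) [Group G]
    (hG : ∀ x : G, x ^ (r ^ α * s ^ β) = 1) (N : ℕ)
    (h : ∀ a x z : G, a ^ r ^ α = 1 → x ^ s ^ β = 1 → (z ^ r ^ α = 1 ∨ z ^ s ^ β = 1) →
      Finite (Subgroup.closure {a, x, z}) ∧ Nat.card (Subgroup.closure {a, x, z}) ≤ N) :
    LF G := by
  refine ind r s α β hr hs hrs hlr hls N G hG ?_
  intro a x z ha hx hz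
  obtain ⟨hf, hc⟩ := h a x z ha hx hz
  have hf' : Finite (c3 a x z) := hf
  have hsol : Group.IsSolvable (c3 a x z) := by
    obtain ⟨c, d, hcd⟩ := x_CRD (c3 a x z) r s α β hr hs (fun y => by
      ext
      simpa using hG y)
    exact x_BUR _ r s c d hr hs hcd
  exact ⟨hf', hsol, depth N G _ hf' hsol hc⟩

end Pool.Agent.H795R4.BU
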