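import Pool.Agent.H795R4.BU.Pair
import Pool.Agent.H32BU.All

set_option autoImplicit false

/-!
# The height of a finite `{r, s}`-group is detected on pairs (`r`-element, `s`-element)
-/

namespace Pool.Agent.H795R4.BU

open Pool.Agent.H32BU Pool.Agent.H32BU.TPAIR

theorem c2_map {G H : Type} [Group G] [Group H] (f : G →* H) (a x : G) :
    (c2 a x).map f = c2 (f a) (f x) := by
  unfold c2
  rw [MonoidHom.map_closure, Set.image_pair]

theorem c2_comm {G : Type} [Group G] (a x : G) : c2 a x = c2 x a := by
  unfold c2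
  rw [Set.pair_comm]

/-- lifting an element of order dividing `R` -/
theorem lift_of {G H : Type} [Group G] [Group H] (f : G →* H) (hf : Function.Surjective f)
    (R S : ℕ) (hRS : Nat.Coprime R S) (hG : ∀ x : G, x ^ (R * S) = 1) (y : H) (hy : y ^ R = 1) :
    ∃ x : G, x ^ R = 1 ∧ f x = y := by
  obtain ⟨b, rfl⟩ := hf y
  obtain ⟨t, ht1, ht2⟩ := Nat.chineseRemainder hRS 1 0
  have hSt : S ∣ t := (Nat.modEq_zero_iff_dvd).1 ht2
  refine ⟨b ^ t, ?_, ?_⟩
  · obtain ⟨k, rfl⟩ := hSt
    have e : S * k * R = R * S * k := by ring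
    rw [← pow_mul, e, pow_mul, hG, one_pow]
  · rw [map_pow]
    have h' : t ≡ 1 [MOD orderOf (f b)] := ht1.of_dvd (orderOf_dvd_of_pow_eq_one hy)
    have h'' := (pow_eq_pow_iff_modEq (x := f b) (n := t) (m := 1)).2 h'
    rwa [pow_one] at h''

theorem one_of_parts {G : Type} [Group G] (R S : ℕ) (hG : ∀ x : G, x ^ (R * S) = 1)
    (h1 : ∀ x : G, x ^ R = 1 → x = 1) (h2 : ∀ x : G, x ^ S = 1 → x = 1) (x : G) : x = 1 := by
  apply h1
  apply h2
  rw [← pow_mul]
  exact hG x

/-- An element of exponent `p * k` and of exponent `R * S` with `p` prime to `S`. -/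
theorem pow_eq_one_of {G : Type} [Group G] (p R S : ℕ) (hpS : Nat.Coprime p S) (g : G)
    (h1 : g ^ (R * p) = 1) (h2 : g ^ (R * S) = 1) : g ^ R = 1 := by
  apply eq_one_of_coprime (g := g ^ R) hpS
  · rw [← pow_mul]; exact h1
  · rw [← pow_mul]; exact h2

theorem main (r s α β : ℕ) (hr : r.Prime) (hs : s.Prime) (hrs : r ≠ s) (N : ℕ) :
    ∀ (F : Type) [Group F], Finite F → Group.IsSolvable F →
    Nat.card F = N → (∀ x : F, x ^ (r ^ α * s ^ β) = 1) → ∀ m : ℕ,
    (∀ a x : F, a ^ r ^ α = 1 → x ^ s ^ β = 1 → DD (c2 a x) m = ⊥) →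
    DD (⊤ : Subgroup F) m = ⊥ := by
  have hRS : Nat.Coprime (r ^ α) (s ^ β) :=
    Nat.Coprime.pow α β ((Nat.coprime_primes hr hs).2 hrs)
  induction N using Nat.strong_induction_on with
  | _ N ih =>
  intro F _ hfin hsol hN hex m hm
  set R := r ^ α with hR
  set S' := s ^ β with hS'
  have hex' : ∀ x : F, x ^ (S' * R) = 1 := fun x => by rw [mul_comm]; exact hex x
  cases m with
  | zero =>
    rw [eq_bot_iff]
    intro g _
    rw [Subgroup.mem_bot]
    refine one_of_parts R S' hex ?_ ?_ g
    · intro a ha
      have h1 : a ∈ c2 a (1 : F) := Subgroup.subset_closure (by simp)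
      have h2 : DD (c2 a (1 : F)) 0 = c2 a 1 := rfl
      rw [← h2, hm a 1 ha (one_pow _)] at h1
      exact h1
    · intro x hx
      have h1 : x ∈ c2 (1 : F) x := Subgroup.subset_closure (by simp)
      have h2 : DD (c2 (1 : F) x) 0 = c2 1 x := rfl
      rw [← h2, hm 1 x (one_pow _) hx] at h1
      exact h1
  | succ m =>
    by_contra hne
    have hK : ∀ K : Subgroup F, K.Normal → K ≠ ⊥ → DD (⊤ : Subgroup F) (m + 1) ≤ K := by
      intro K hKn hK0
      have := hKn
      have hcard : Nat.card (F ⧸ K) < N := by
        have h1 := Subgroup.card_eq_card_quotient_mul_card_subgroup K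
        have h2 : 1 < Nat.card K := by
          rw [Subgroup.one_lt_card_iff_ne_bot]
          exact hK0
        have h3 : 0 < Nat.card (F ⧸ K) := Nat.card_pos
        rw [hN] at h1
        rw [h1]
        nlinarith
      have htor : ∀ x : F, IsOfFinOrder x := fun x => isOfFinOrder_of_finite x
      have h4 := ih _ hcard (F ⧸ K) inferInstance inferInstance rfl (by
        intro x'
        obtain ⟨x, rfl⟩ := QuotientGroup.mk'_surjective K x'
        rw [← map_pow, hex x, map_one]) (m + 1) (by
        intro a' x' ha' hx'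
        obtain ⟨a, ha, rfl⟩ := lift_of (QuotientGroup.mk' K) (QuotientGroup.mk'_surjective K)
          R S' hRS hex a' ha'
        obtain ⟨x, hx, rfl⟩ := lift_of (QuotientGroup.mk' K) (QuotientGroup.mk'_surjective K)
          S' R hRS.symm hex' x' hx'
        rw [← c2_map, ← x_MAPS F (F ⧸ K) (QuotientGroup.mk' K) htor (c2 a x) (m + 1),
          hm a x ha hx, Subgroup.map_bot])
      have h5 := x_MAPS F (F ⧸ K) (QuotientGroup.mk' K) htor ⊤ (m + 1)
      rw [Subgroup.map_top_of_surjective _ (QuotientGroup.mk'_surjective K), h4,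
        Subgroup.map_eq_bot_iff, QuotientGroup.ker_mk'] at h5
      exact h5
    obtain ⟨p, S, hp, hcomm, hexp, hStop, hsup, hfaith⟩ := x_TWOA F hfin hsol m hne hK
    have hScard : Nat.card S < N := by
      rw [← hN]
      refine lt_of_le_of_ne (Subgroup.card_le_card_group S) fun h => hStop ?_
      exact Subgroup.eq_top_of_card_eq S h
    have hinj : Function.Injective S.subtype := S.subtype_injective
    have hpush : ∀ (A : Subgroup S) (k : ℕ), DD (A.map S.subtype) k = ⊥ ↔ DD A k = ⊥ := by
      intro A k
      rw [← x_MAPI S F S.subtype hinj A k]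
      exact Subgroup.map_eq_bot_iff_of_injective _ hinj
    have htop : (⊤ : Subgroup S).map S.subtype = S := by
      rw [← MonoidHom.range_eq_map, Subgroup.range_subtype]
    have hSex : ∀ x : S, x ^ (R * S') = 1 := by
      intro x
      ext
      simpa using hex x
    have hDS : DD S (m + 1) = ⊥ := by
      have h1 := ih _ hScard S inferInstance inferInstance rfl hSex (m + 1) (by
        intro a x ha hx
        rw [← hpush, c2_map]
        refine hm _ _ ?_ ?_
        · rw [← map_pow, ha, map_one]
        · rw [← map_pow, hx, map_one])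
      rw [← hpush, htop] at h1
      exact h1
    obtain ⟨hSm, hcop⟩ := x_TWOB F m p S hfin hp hne hK hcomm hexp hsup hfaith hDS
    set V := DD (⊤ : Subgroup F) (m + 1) with hVdef
    have hVn : V.Normal := (x_MON F).2.2.2.1 ⊤ inferInstance (m + 1)
    -- the prime `p` is `r` or `s`
    have hpRS : p ∣ R * S' := by
      by_contra hnot
      apply hne
      rw [eq_bot_iff]
      intro v hv
      rw [Subgroup.mem_bot]
      exact eq_one_of_coprime ((Nat.Prime.coprime_iff_not_dvd hp).2 hnot).symm (hex v)
        (hexp v hv)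
    have hpcase : p = r ∨ p = s := by
      rcases (Nat.Prime.dvd_mul hp).1 hpRS with h | h
      · left
        exact (Nat.prime_dvd_prime_iff_eq hp hr).1 (hp.dvd_of_dvd_pow h)
      · right
        exact (Nat.prime_dvd_prime_iff_eq hp hs).1 (hp.dvd_of_dvd_pow h)
    -- elements of `V` and the exponents
    have hVr : p = r → ∀ v ∈ V, ∀ a : F, a ^ R = 1 → (a * v) ^ R = 1 := by
      intro hpr v hv a ha
      have hcop' : Nat.Coprime p S' := by
        rw [hpr]
        exact Nat.Coprime.pow_right β ((Nat.coprime_primes hr hs).2 hrs)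
      refine pow_eq_one_of p R S' hcop' _ ?_ (hex _)
      rw [pow_mul]
      apply hexp
      have h1 : (QuotientGroup.mk' V) ((a * v) ^ R) = 1 := by
        have hv1 : (QuotientGroup.mk' V) v = 1 := (QuotientGroup.eq_one_iff v).2 hv
        rw [map_pow, map_mul, hv1, mul_one, ← map_pow, ha, map_one]
      exact (QuotientGroup.eq_one_iff _).1 h1
    have hVs : p = s → ∀ v ∈ V, ∀ a : F, a ^ S' = 1 → (a * v) ^ S' = 1 := by
      intro hps v hv a ha
      have hcop' : Nat.Coprime p R := by
        rw [hps]
        exact Nat.Coprime.pow_right α ((Nat.coprime_primes hs hr).2 hrs.symm)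
      refine pow_eq_one_of p S' R hcop' _ ?_ (hex' _)
      rw [pow_mul]
      apply hexp
      have h1 : (QuotientGroup.mk' V) ((a * v) ^ S') = 1 := by
        have hv1 : (QuotientGroup.mk' V) v = 1 := (QuotientGroup.eq_one_iff v).2 hv
        rw [map_pow, map_mul, hv1, mul_one, ← map_pow, ha, map_one]
      exact (QuotientGroup.eq_one_iff _).1 h1
    cases m with
    | zero =>
      -- `S` is a nontrivial group of order prime to `p`
      have hS0 : ∀ b ∈ S, ∃ k : ℕ, Nat.Coprime k p ∧ b ^ k = 1 := hcop
      have hSne : S ≠ ⊥ := hSm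
      apply hSne
      rw [eq_bot_iff]
      intro y hy
      rw [Subgroup.mem_bot]
      refine hfaith y hy (fun v hv => ?_)
      obtain ⟨k, hk, hyk⟩ := hS0 y hy
      have hcommpair : ∀ a x : F, a ^ R = 1 → x ^ S' = 1 → Commute a x := by
        intro a x ha hx
        have h1 : NR (c2 a x) = ⊥ := hm a x ha hx
        have h2 : a * x * a⁻¹ * x⁻¹ ∈ NR (c2 a x) :=
          Subgroup.subset_closure ⟨a, Subgroup.subset_closure (by simp), x,
            Subgroup.subset_closure (by simp), R, S', hRS, ha, hx, rfl⟩
        rw [h1, Subgroup.mem_bot, mul_inv_eq_one, mul_inv_eq_iff_eq_mul] at h2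
        exact h2
      rcases hpcase with hpr | hps
      · -- `y` has exponent `S'`
        have hyS : y ^ S' = 1 := by
          have h1 : Nat.Coprime k R := by
            rw [hR, ← hpr]
            exact Nat.Coprime.pow_right α hk
          refine eq_one_of_coprime (g := y ^ S') h1 ?_ ?_
          · rw [← pow_mul, mul_comm, pow_mul, hyk, one_pow]
          · rw [← pow_mul]; exact hex' y
        have hvR : v ^ R = 1 := by
          have := hVr hpr v hv 1 (one_pow _)
          rwa [one_mul] at this
        exact (hcommpair v y hvR hyS).symm.eq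
      · have hyR : y ^ R = 1 := by
          have h1 : Nat.Coprime k S' := by
            rw [hS', ← hps]
            exact Nat.Coprime.pow_right β hk
          refine eq_one_of_coprime (g := y ^ R) h1 ?_ ?_
          · rw [← pow_mul, mul_comm, pow_mul, hyk, one_pow]
          · rw [← pow_mul]; exact hex y
        have hvS : v ^ S' = 1 := by
          have := hVs hps v hv 1 (one_pow _)
          rwa [one_mul] at this
        exact (hcommpair y v hyR hvS).eq
    | succ m =>
      have hex2 : ∃ a x : S, a ^ R = 1 ∧ x ^ S' = 1 ∧ DD (c2 a x) (m + 1) ≠ ⊥ := by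
        by_contra hcon
        push Not at hcon
        apply hSm
        have h1 := ih _ hScard S inferInstance inferInstance rfl hSex (m + 1)
          (fun a x ha hx => hcon a x ha hx)
        rw [← hpush, htop] at h1
        exact h1
      obtain ⟨a, x, ha, hx, hax⟩ := hex2
      apply hax
      rw [← hpush, c2_map]
      have hle : DD (c2 (S.subtype a) (S.subtype x)) (m + 1) ≤ DD S (m + 1) := by
        apply (x_MON F).1
        unfold c2
        rw [Subgroup.closure_le]
        rintro y hy
        rcases hy with rfl | hy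
        · exact a.2
        · rw [Set.mem_singleton_iff] at hy
          subst hy
          exact x.2
      have ha' : (S.subtype a) ^ R = 1 := by rw [← map_pow, ha, map_one]
      have hx' : (S.subtype x) ^ S' = 1 := by rw [← map_pow, hx, map_one]
      rcases hpcase with hpr | hps
      · rw [c2_comm]
        rw [c2_comm] at hle
        refine pair' x_SZ x_CNT x_MAPS x_MON x_SYL V p m (S.subtype x) (S.subtype a) hfin hp hVn
          hcomm hexp (fun b hb => hcop b (hle hb))
          (fun b hb hv => hfaith b (le_top_DD x_MON S (m + 1) (hle hb)) hv) ?_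
        intro v hv
        rw [c2_comm]
        exact hm _ _ (hVr hpr v hv _ ha') hx'
      · refine pair' x_SZ x_CNT x_MAPS x_MON x_SYL V p m (S.subtype a) (S.subtype x) hfin hp hVn
          hcomm hexp (fun b hb => hcop b (hle hb))
          (fun b hb hv => hfaith b (le_top_DD x_MON S (m + 1) (hle hb)) hv) ?_
        intro v hv
        exact hm _ _ ha' (hVs hps v hv _ hx')

/-- The height of a finite soluble group of exponent dividing `r ^ α * s ^ β` is detected on the
subgroups generated by an `r`-element and an `s`-element. -/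
theorem two_pq (r s α β : ℕ) (hr : r.Prime) (hs : s.Prime) (hrs : r ≠ s)
    (F : Type) [Group F] (hfin : Finite F) (hsol : Group.IsSolvable F)
    (hex : ∀ x : F, x ^ (r ^ α * s ^ β) = 1) (m : ℕ)
    (hm : ∀ a x : F, a ^ r ^ α = 1 → x ^ s ^ β = 1 → DD (c2 a x) m = ⊥) :
    DD (⊤ : Subgroup F) m = ⊥ :=
  main r s α β hr hs hrs _ F hfin hsol rfl hex m hm

end Pool.Agent.H795R4.BU
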